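import Pool.Agent.H31R3.AL.Code

set_option autoImplicit false

/-!
The countable-or-perfect dichotomy for the isomorphism types of countable structures whose binary
relation is locally almost a linear order: each element is in finitely many irregular pairs (pairs
which are joined by arrows in no direction or in both directions, and pairs which occur together in
a failure of transitivity), with arbitrarily many further relations, of any arities, on the tuples
whose entries are pairwise irregular or equal.
-/

namespace Pool.Agent.Results.MP_5607ba_lc.LocallyAlmostLinear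

/-- Structures on `ℕ`: a binary relation `x.1` and, for each `i`, a relation `x.2 i` of
arity `a i`. -/
abbrev Structures (a : ℕ → ℕ) : Type := (ℕ → ℕ → Bool) × ((i : ℕ) → (Fin (a i) → ℕ) → Bool)

/-- The relation holds from `p` to `q` and not from `q` to `p`. -/
def Arrow (r : ℕ → ℕ → Bool) (p q : ℕ) : Prop := r p q = true ∧ r q p = false

/-- The arrows fail to be transitive along `p`, `q`, `s`. -/
def Failure (r : ℕ → ℕ → Bool) (p q s : ℕ) : Prop := Arrow r p q ∧ Arrow r q s ∧ ¬ Arrow r p s

/-- The pair is irregular: the elements are different, and either they are not joined by an arrow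
or both of them belong to one failure of transitivity. -/
def Irregular (r : ℕ → ℕ → Bool) (p q : ℕ) : Prop := p ≠ q ∧ ((¬ Arrow r p q ∧ ¬ Arrow r q p) ∨
  ∃ u v w, Failure r u v w ∧ (p = u ∨ p = v ∨ p = w) ∧ (q = u ∨ q = v ∨ q = w))

/-- Each element is in finitely many irregular pairs, and any two entries of a tuple which is in
one of the relations `x.2 i` are equal or form an irregular pair. -/
structure AlmostLinear {a : ℕ → ℕ} (x : Structures a) : Prop where
  finite : ∀ m, {n | Irregular x.1 m n}.Finite
  near : ∀ i t, x.2 i t = true → ∀ j k, t j = t k ∨ Irregular x.1 (t j) (t k)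

/-- The action of the Polish group of permutations of `ℕ` on structures, by relabelling. -/
def relabel {a : ℕ → ℕ} (σ : Equiv.Perm ℕ) (x : Structures a) : Structures a :=
  (fun m n => x.1 (σ.symm m) (σ.symm n), fun i v => x.2 i (⇑σ.symm ∘ v))

/-- Every invariant Borel set `B` of structures which are almost linear contains countably many
orbits, or there is a continuous map from the Cantor space into `B` whose values are in different
orbits. -/
theorem result (a : ℕ → ℕ) (B : Set (Structures a)) (hB : MeasurableSet B)
    (hA : ∀ x ∈ B, AlmostLinear x) (hi : ∀ x ∈ B, ∀ σ : Equiv.Perm ℕ, relabel σ x ∈ B) :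
    (∃ f : ℕ → Structures a, ∀ x ∈ B, ∃ (n : ℕ) (σ : Equiv.Perm ℕ), x = relabel σ (f n)) ∨
    (∃ g : (ℕ → Bool) → Structures a, Continuous g ∧ (∀ b, g b ∈ B) ∧
      ∀ b c, (∃ σ : Equiv.Perm ℕ, g c = relabel σ (g b)) → b = c) :=
  Pool.Agent.H31R3.AL.main B hB (fun x hx => ⟨(hA x hx).finite, (hA x hx).near⟩) hi

end Pool.Agent.Results.MP_5607ba_lc.LocallyAlmostLinear
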