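import Pool.Agent.W878.VC.Base

set_option autoImplicit false

/-!
The countable-or-perfect dichotomy for the isomorphism types of countable partial orders, and of
countable pairs of linear orders, with countably many unary predicates, is reduced to their
comparability graphs, incomparability graphs and inversion graphs, for every hereditary class of
graphs. In particular it holds if this graph or its complement contains no subdivision of the
infinite complete graph.
-/

namespace Pool.Agent.Results.MP_5607ba_lc.PrimeParts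

open Pool.Agent.W878.VC

/-- Structures on `ℕ` with `m` binary relations and countably many unary predicates. -/
abbrev Structures (m : ℕ) : Type := (Fin m → ℕ → ℕ → Bool) × (ℕ → ℕ → Bool)

/-- The action of the Polish group of permutations of `ℕ`, by relabelling. -/
def relabel {m : ℕ} (σ : Equiv.Perm ℕ) (x : Structures m) : Structures m :=
  (fun i u v => x.1 i (σ⁻¹ u) (σ⁻¹ v), fun i u => x.2 i (σ⁻¹ u))

/-- `B` meets countably many orbits, or there is a continuous map from the Cantor space to `B`
whose values are in different orbits. -/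
def Dichotomy {m : ℕ} (B : Set (Structures m)) : Prop :=
  (∃ f : ℕ → Structures m, ∀ x ∈ B, ∃ n, ∃ σ : Equiv.Perm ℕ, x = relabel σ (f n)) ∨
  (∃ g : (ℕ → Bool) → Structures m, Continuous g ∧ (∀ b, g b ∈ B) ∧
    ∀ b c, (∃ σ : Equiv.Perm ℕ, g c = relabel σ (g b)) → b = c)

/-- The dichotomy holds for all invariant Borel sets of structures whose binary relations are
in `V`. -/
def Vaught {m : ℕ} (V : (Fin m → ℕ → ℕ → Bool) → Prop) : Prop :=
  ∀ B : Set (Structures m), MeasurableSet B → (∀ x ∈ B, ∀ σ, relabel σ x ∈ B) →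
    (∀ x ∈ B, V x.1) → Dichotomy B

/-- The relation of a graph in the class `K`. -/
def Graphs (K : SimpleGraph ℕ → Prop) (r : Fin 1 → ℕ → ℕ → Bool) : Prop :=
  ∃ G : SimpleGraph ℕ, K G ∧ ∀ u v, r 0 u v = true ↔ G.Adj u v

/-- The class `K` is closed under induced subgraphs (and copies). -/
def Hereditary (K : SimpleGraph ℕ → Prop) : Prop :=
  ∀ G, K G → ∀ e : ℕ → ℕ, Function.Injective e → K (G.comap e)

/-- Strict partial orders. -/
structure IsOrder (l : ℕ → ℕ → Bool) : Prop where
  irrefl : ∀ u, l u u = false
  trans : ∀ u v w, l u v = true → l v w = true → l u w = true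

/-- Strict linear orders. -/
structure IsLinear (l : ℕ → ℕ → Bool) : Prop extends IsOrder l where
  total : ∀ u v, u ≠ v → l u v = true ∨ l v u = true

/-- The comparability graph of a partial order. -/
def comparability (l : ℕ → ℕ → Bool) : SimpleGraph ℕ :=
  SimpleGraph.fromRel fun u v => l u v = true

/-- The inversion graph of a pair of linear orders. -/
def inversions (l l' : ℕ → ℕ → Bool) : SimpleGraph ℕ :=
  SimpleGraph.fromRel fun u v => l u v ≠ l' u v

/-- Partial orders whose comparability graph is in `K`. -/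
def Comparable (K : SimpleGraph ℕ → Prop) (r : Fin 1 → ℕ → ℕ → Bool) : Prop :=
  IsOrder (r 0) ∧ K (comparability (r 0))

/-- Partial orders whose incomparability graph is in `K`. -/
def Incomparable (K : SimpleGraph ℕ → Prop) (r : Fin 1 → ℕ → ℕ → Bool) : Prop :=
  IsOrder (r 0) ∧ K (comparability (r 0))ᶜ

/-- Pairs of linear orders whose inversion graph is in `K`. -/
def Pairs (K : SimpleGraph ℕ → Prop) (r : Fin 2 → ℕ → ℕ → Bool) : Prop :=
  IsLinear (r 0) ∧ IsLinear (r 1) ∧ K (inversions (r 0) (r 1))

/-- `G` contains a subdivision of the complete graph on `ℕ`: branch vertices `v i` and, for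
`i < j`, a path from `v i` to `v j`; two of these paths meet only in branch vertices, and a path
contains no branch vertices besides its ends. -/
def CliqueSubdivision (G : SimpleGraph ℕ) : Prop :=
  ∃ v : ℕ → ℕ, Function.Injective v ∧ ∃ P : ∀ i j, G.Walk (v i) (v j),
    (∀ i j, i < j → (P i j).IsPath) ∧
    (∀ i j k, i < j → v k ∈ (P i j).support → k = i ∨ k = j) ∧
    (∀ i j i' j', i < j → i' < j' → (i, j) ≠ (i', j') → ∀ x, x ∈ (P i j).support →
      x ∈ (P i' j').support → ∃ k, x = v k)

theorem rs_zero (r : Fin 1 → ℕ → ℕ → Bool) (u v : ℕ) : rs r 0 u v ↔ r 0 u v = true := by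
  unfold rs
  constructor
  · rintro ⟨h, h1⟩
    exact h1
  · intro h
    exact ⟨Nat.one_pos, h⟩

theorem rs_big (r : Fin 1 → ℕ → ℕ → Bool) {i : ℕ} (hi : i ≠ 0) (u v : ℕ) : ¬ rs r i u v := by
  rintro ⟨h, -⟩
  omega

theorem rs2_zero (r : Fin 2 → ℕ → ℕ → Bool) (u v : ℕ) : rs r 0 u v ↔ r 0 u v = true := by
  unfold rs
  constructor
  · rintro ⟨h, h1⟩
    exact h1
  · intro h
    exact ⟨Nat.two_pos, h⟩

theorem rs2_one (r : Fin 2 → ℕ → ℕ → Bool) (u v : ℕ) : rs r 1 u v ↔ r 1 u v = true := by
  unfold rs
  constructor
  · rintro ⟨h, h1⟩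
    exact h1
  · intro h
    exact ⟨Nat.one_lt_two, h⟩

theorem rs2_big (r : Fin 2 → ℕ → ℕ → Bool) {i : ℕ} (hi : i ≠ 0) (hi' : i ≠ 1) (u v : ℕ) :
    ¬ rs r i u v := by
  rintro ⟨h, -⟩
  omega

theorem comparability_adj (l : ℕ → ℕ → Bool) (u v : ℕ) :
    (comparability l).Adj u v ↔ u ≠ v ∧ (l u v = true ∨ l v u = true) :=
  SimpleGraph.fromRel_adj _ _ _

theorem inversions_adj (l l' : ℕ → ℕ → Bool) (u v : ℕ) :
    (inversions l l').Adj u v ↔ u ≠ v ∧ (l u v ≠ l' u v ∨ l v u ≠ l' v u) :=
  SimpleGraph.fromRel_adj _ _ _

/-- Reduction of partial orders to incomparability graphs. -/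
theorem incomparable {K : SimpleGraph ℕ → Prop} (hK : Hereditary K) (h : Vaught (Graphs K)) :
    Vaught (Incomparable K) := by
  refine vs_prime (W := W1 (Graphs K)) (vcu_W1 h) ?_ ?_
  · intro x hx i u
    by_cases hi : i = 0
    · subst hi
      rw [rs_zero, hx.1.irrefl]
      exact Bool.false_ne_true
    · exact rs_big _ hi u u
  · intro x hx e he hP y hy
    have h0 : ∀ u v, rl y 0 u v ↔ x.1 0 (e u) (e v) = true := fun u v =>
      (hy 0 u v).trans (rs_zero _ _ _)
    refine ⟨fun i hi u v => ?_, ⟨fun u => ?_, fun u v w => ?_⟩, fun X hX => ?_, ?_⟩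
    · rw [hy]
      exact rs_big _ hi _ _
    · rw [h0, hx.1.irrefl]
      exact Bool.false_ne_true
    · rw [h0, h0, h0]
      exact hx.1.trans _ _ _
    · refine hP X fun i => ?_
      by_cases hi : i = 0
      · subst hi
        have e1 : (fun u v => rs x.1 0 (e u) (e v)) = rl y 0 := by
          funext u v
          exact propext (hy 0 u v).symm
        rw [e1]
        exact hX
      · intro u _ v _ w _
        exact ⟨⟨fun h => absurd h (rs_big _ hi _ _), fun h => absurd h (rs_big _ hi _ _)⟩,
          ⟨fun h => absurd h (rs_big _ hi _ _), fun h => absurd h (rs_big _ hi _ _)⟩⟩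
    · refine ⟨(comparability (x.1 0))ᶜ.comap e, hK _ hx.2 e he, fun u v => ?_⟩
      rw [incR_iff, h0, h0, SimpleGraph.comap_adj, SimpleGraph.compl_adj, comparability_adj,
        he.ne_iff]
      constructor
      · rintro ⟨h1, h2, h3⟩
        exact ⟨h1, fun h4 => h4.2.elim h2 h3⟩
      · rintro ⟨h1, h2⟩
        exact ⟨h1, fun h3 => h2 ⟨h1, Or.inl h3⟩, fun h3 => h2 ⟨h1, Or.inr h3⟩⟩

/-- Reduction of pairs of linear orders to inversion graphs. -/
theorem pairs {K : SimpleGraph ℕ → Prop} (hK : Hereditary K) (h : Vaught (Graphs K)) :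
    Vaught (Pairs K) := by
  refine vs_prime (W := W2 (Graphs K)) (vcu_W2 h) ?_ ?_
  · intro x hx i u
    by_cases hi : i = 0
    · subst hi
      rw [rs2_zero, hx.1.irrefl]
      exact Bool.false_ne_true
    · by_cases hi' : i = 1
      · subst hi'
        rw [rs2_one, hx.2.1.irrefl]
        exact Bool.false_ne_true
      · exact rs2_big _ hi hi' u u
  · intro x hx e he hP y hy
    have h0 : ∀ u v, rl y 0 u v ↔ x.1 0 (e u) (e v) = true := fun u v =>
      (hy 0 u v).trans (rs2_zero _ _ _)
    have h1 : ∀ u v, rl y 1 u v ↔ x.1 1 (e u) (e v) = true := fun u v =>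
      (hy 1 u v).trans (rs2_one _ _ _)
    refine ⟨fun i hi hi' u v => ?_, ⟨⟨fun u => ?_, fun u v w => ?_⟩, fun u v huv => ?_⟩,
      ⟨⟨fun u => ?_, fun u v w => ?_⟩, fun u v huv => ?_⟩, fun X hX hX' => ?_, ?_⟩
    · rw [hy]
      exact rs2_big _ hi hi' _ _
    · rw [h0, hx.1.irrefl]
      exact Bool.false_ne_true
    · rw [h0, h0, h0]
      exact hx.1.trans _ _ _
    · rw [h0, h0]
      exact hx.1.total _ _ (he.ne huv)
    · rw [h1, hx.2.1.irrefl]
      exact Bool.false_ne_true
    · rw [h1, h1, h1]
      exact hx.2.1.trans _ _ _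
    · rw [h1, h1]
      exact hx.2.1.total _ _ (he.ne huv)
    · refine hP X fun i => ?_
      by_cases hi : i = 0
      · subst hi
        have e1 : (fun u v => rs x.1 0 (e u) (e v)) = rl y 0 := by
          funext u v
          exact propext (hy 0 u v).symm
        rw [e1]
        exact hX
      · by_cases hi' : i = 1
        · subst hi'
          have e1 : (fun u v => rs x.1 1 (e u) (e v)) = rl y 1 := by
            funext u v
            exact propext (hy 1 u v).symm
          rw [e1]
          exact hX'
        · intro u _ v _ w _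
          exact ⟨⟨fun h => absurd h (rs2_big _ hi hi' _ _),
              fun h => absurd h (rs2_big _ hi hi' _ _)⟩,
            ⟨fun h => absurd h (rs2_big _ hi hi' _ _), fun h => absurd h (rs2_big _ hi hi' _ _)⟩⟩
    · refine ⟨(inversions (x.1 0) (x.1 1)).comap e, hK _ hx.2.2 e he, fun u v => ?_⟩
      have hb : ∀ b c : Bool, (b = true ↔ c = true) ↔ b = c := by decide
      rw [invR_iff, h0, h1, SimpleGraph.comap_adj, inversions_adj, he.ne_iff, hb]
      refine and_congr_right fun huv => ⟨fun h2 => Or.inl h2, fun h2 => ?_⟩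
      rcases h2 with h2 | h2
      · exact h2
      · intro h3
        apply h2
        have hne : e u ≠ e v := he.ne huv
        have t0 := hx.1.total _ _ hne
        have t1 := hx.2.1.total _ _ hne
        have a0 : ¬ (x.1 0 (e u) (e v) = true ∧ x.1 0 (e v) (e u) = true) := fun h4 => by
          have := hx.1.trans _ _ _ h4.1 h4.2
          rw [hx.1.irrefl] at this
          exact Bool.false_ne_true this
        have a1 : ¬ (x.1 1 (e u) (e v) = true ∧ x.1 1 (e v) (e u) = true) := fun h4 => by
          have := hx.2.1.trans _ _ _ h4.1 h4.2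
          rw [hx.2.1.irrefl] at this
          exact Bool.false_ne_true this
        revert h3 t0 t1 a0 a1
        generalize x.1 0 (e u) (e v) = b1
        generalize x.1 0 (e v) (e u) = b2
        generalize x.1 1 (e u) (e v) = b3
        generalize x.1 1 (e v) (e u) = b4
        revert b1 b2 b3 b4
        decide

/-- The complement of a binary relation on different elements. -/
def co (x : Structures 1) : Structures 1 :=
  (fun i u v => decide (u ≠ v) && !x.1 i u v, x.2)

theorem co_cont : Continuous co := by
  refine Continuous.prodMk ?_ continuous_snd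
  refine continuous_pi fun i => continuous_pi fun u => continuous_pi fun v => ?_
  have h1 : Continuous fun x : Structures 1 => x.1 i u v :=
    (continuous_apply v).comp ((continuous_apply u).comp
      ((continuous_apply i).comp continuous_fst))
  have h2 : Continuous fun p : Bool => decide (u ≠ v) && !p := continuous_of_discreteTopology
  exact h2.comp h1

theorem co_relabel (σ : Equiv.Perm ℕ) (x : Structures 1) :
    co (relabel σ x) = relabel σ (co x) := by
  refine Prod.ext ?_ rfl
  funext i u v
  show (decide (u ≠ v) && !x.1 i (σ⁻¹ u) (σ⁻¹ v)) =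
    (decide (σ⁻¹ u ≠ σ⁻¹ v) && !x.1 i (σ⁻¹ u) (σ⁻¹ v))
  congr 1
  rw [decide_eq_decide]
  exact ((σ⁻¹).injective.ne_iff).symm

theorem co_co {x : Structures 1} (h : ∀ u, x.1 0 u u = false) : co (co x) = x := by
  refine Prod.ext ?_ rfl
  funext i u v
  rw [Subsingleton.elim i 0]
  show (decide (u ≠ v) && !(decide (u ≠ v) && !x.1 0 u v)) = x.1 0 u v
  by_cases huv : u = v
  · subst huv
    rw [h u]
    simp
  · simp [huv]

theorem co_graph {x : Structures 1} {G : SimpleGraph ℕ} (h : ∀ u v, x.1 0 u v = true ↔ G.Adj u v)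
    (u v : ℕ) : (co x).1 0 u v = true ↔ Gᶜ.Adj u v := by
  show (decide (u ≠ v) && !x.1 0 u v) = true ↔ _
  rw [Bool.and_eq_true, decide_eq_true_iff, Bool.not_eq_true', ← Bool.not_eq_true, h,
    SimpleGraph.compl_adj]

theorem measurable_irrefl : MeasurableSet {x : Structures 1 | ∀ u, x.1 0 u u = false} := by
  have e : {x : Structures 1 | ∀ u, x.1 0 u u = false} =
      ⋂ u, (fun x : Structures 1 => x.1 0 u u) ⁻¹' {false} := by
    ext x
    simp
  rw [e]
  refine MeasurableSet.iInter fun u => ?_
  have h1 : Measurable fun x : Structures 1 => x.1 0 u u :=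
    (measurable_pi_apply u).comp ((measurable_pi_apply u).comp
      ((measurable_pi_apply (0 : Fin 1)).comp measurable_fst))
  exact h1 (MeasurableSet.singleton false)

/-- The dichotomy for the complements of the graphs of a class. -/
theorem complements {K : SimpleGraph ℕ → Prop} (h : Vaught (Graphs K)) :
    Vaught (Graphs fun G => K Gᶜ) := by
  have hirr : ∀ {K' : SimpleGraph ℕ → Prop} {x : Structures 1}, Graphs K' x.1 →
      ∀ u, x.1 0 u u = false := by
    rintro K' x ⟨G, -, hG⟩ u
    rw [Bool.eq_false_iff]
    intro h1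
    exact G.loopless.irrefl u ((hG u u).1 h1)
  intro B hB hBi hBV
  have hmeas : MeasurableSet (co ⁻¹' B ∩ {x : Structures 1 | ∀ u, x.1 0 u u = false}) :=
    (co_cont.measurable hB).inter measurable_irrefl
  have key := h _ hmeas ?_ ?_
  · rcases key with ⟨f, hf⟩ | ⟨g, hg, hgB, hgi⟩
    · left
      refine ⟨fun n => co (f n), fun x hx => ?_⟩
      have hx0 := hirr (hBV x hx)
      have hcx : co x ∈ co ⁻¹' B ∩ {x : Structures 1 | ∀ u, x.1 0 u u = false} := by
        refine ⟨?_, fun u => ?_⟩
        · show co (co x) ∈ B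
          rw [co_co hx0]
          exact hx
        · show (decide (u ≠ u) && !x.1 0 u u) = false
          simp
      obtain ⟨n, σ, h1⟩ := hf _ hcx
      refine ⟨n, σ, ?_⟩
      rw [← co_relabel, ← h1, co_co hx0]
    · right
      refine ⟨fun b => co (g b), co_cont.comp hg, fun b => (hgB b).1, ?_⟩
      rintro b c ⟨σ, h1⟩
      refine hgi b c ⟨σ, ?_⟩
      have h2 := congrArg co h1
      rw [← co_relabel] at h2
      rw [co_co (hgB c).2] at h2
      rw [h2]
      apply co_co
      intro u
      exact (hgB b).2 _
  · rintro x ⟨h1, h2⟩ σ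
    refine ⟨?_, fun u => h2 _⟩
    show co (relabel σ x) ∈ B
    rw [co_relabel]
    exact hBi _ h1 σ
  · rintro x ⟨h1, h2⟩
    obtain ⟨G, hG, h3⟩ := hBV _ h1
    refine ⟨Gᶜ, hG, fun u v => ?_⟩
    have h4 := co_graph h3 u v
    rw [co_co h2] at h4
    exact h4

theorem hereditary_compl {K : SimpleGraph ℕ → Prop} (hK : Hereditary K) :
    Hereditary fun G => K Gᶜ := by
  intro G hG e he
  have h1 : (G.comap e)ᶜ = Gᶜ.comap e := by
    ext u v
    rw [SimpleGraph.compl_adj, SimpleGraph.comap_adj, SimpleGraph.comap_adj,
      SimpleGraph.compl_adj, he.ne_iff]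
  rw [h1]
  exact hK _ hG e he

theorem comparable {K : SimpleGraph ℕ → Prop} (hK : Hereditary K) (h : Vaught (Graphs K)) :
    Vaught (Comparable K) := by
  have h1 := incomparable (hereditary_compl hK) (complements h)
  intro B hB hBi hBV
  refine h1 B hB hBi fun x hx => ⟨(hBV x hx).1, ?_⟩
  show K (comparability (x.1 0))ᶜᶜ
  rw [compl_compl]
  exact (hBV x hx).2

theorem subdivision_comap {G : SimpleGraph ℕ} {e : ℕ → ℕ} (he : Function.Injective e)
    (h : CliqueSubdivision (G.comap e)) : CliqueSubdivision G := by
  obtain ⟨v, hv, P, h1, h2, h3⟩ := h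
  let φ : G.comap e →g G := ⟨e, fun h => h⟩
  refine ⟨fun i => e (v i), he.comp hv, fun i j => (P i j).map φ, fun i j hij => ?_,
    fun i j k hij hk => ?_, fun i j i' j' hij hij' hne x hx hx' => ?_⟩
  · exact (h1 i j hij).map he
  · rw [SimpleGraph.Walk.support_map, List.mem_map] at hk
    obtain ⟨y, hy, hy'⟩ := hk
    have : y = v k := he hy'
    rw [this] at hy
    exact h2 i j k hij hy
  · rw [SimpleGraph.Walk.support_map, List.mem_map] at hx hx'
    obtain ⟨y, hy, hy'⟩ := hx
    obtain ⟨z, hz, hz'⟩ := hx'
    have hyz : y = z := he (hy'.trans hz'.symm)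
    rw [← hyz] at hz
    obtain ⟨k, hk⟩ := h3 i j i' j' hij hij' hne y hy hz
    refine ⟨k, ?_⟩
    rw [← hy', hk]
    rfl

/-- Graphs such that the graph or its complement contains no subdivision of the infinite complete
graph. -/
def Sparse (G : SimpleGraph ℕ) : Prop := ¬ CliqueSubdivision G ∨ ¬ CliqueSubdivision Gᶜ

theorem hereditary_sparse : Hereditary Sparse := by
  have h1 : Hereditary fun G => ¬ CliqueSubdivision G := fun G hG e he h =>
    hG (subdivision_comap he h)
  intro G hG e he
  rcases hG with h | h
  · exact Or.inl (h1 G h e he)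
  · exact Or.inr (hereditary_compl h1 G h e he)

/-- For every hereditary class of graphs, the dichotomy for the graphs in the class, with unary
predicates, implies the dichotomy for the partial orders whose comparability graph is in the class,
for the partial orders whose incomparability graph is in the class, and for the pairs of linear
orders whose inversion graph is in the class, with unary predicates. All this holds for the class of
the graphs which do not contain a subdivision of the infinite complete graph or whose complement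
does not contain one. -/
theorem result :
    (∀ K : SimpleGraph ℕ → Prop, Hereditary K → Vaught (Graphs K) →
      Vaught (Comparable K) ∧ Vaught (Incomparable K) ∧ Vaught (Pairs K)) ∧
    Hereditary Sparse ∧ Vaught (Graphs Sparse) ∧
    Vaught (Comparable Sparse) ∧ Vaught (Incomparable Sparse) ∧ Vaught (Pairs Sparse) := by
  have h0 : Vaught (Graphs Sparse) := vs_base
  exact ⟨fun K hK h => ⟨comparable hK h, incomparable hK h, pairs hK h⟩, hereditary_sparse, h0,
    comparable hereditary_sparse h0, incomparable hereditary_sparse h0, pairs hereditary_sparse h0⟩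

end Pool.Agent.Results.MP_5607ba_lc.PrimeParts
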