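import Pool.Agent.TH686.DO.Rat

set_option autoImplicit false

/-!
The group of the order automorphisms of the rational numbers, acting by conjugation on the
involutions of the rational numbers: the countable-or-perfect dichotomy for the invariant Borel sets
of this action implies the dichotomy for the isomorphism types of countable structures in all
countable relational languages.
-/

namespace Pool.Agent.Results.MP_5607ba_lc.RationalInvolutions

/-- Relational structures on `ℕ` with relations of arities `a 0, a 1, ...`. -/
abbrev Str (a : ℕ → ℕ) : Type := (i : ℕ) → (Fin (a i) → ℕ) → Bool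

/-- Isomorphism: `x` and `y` are in the same orbit of the group of the permutations of `ℕ`. -/
def StrIso {a : ℕ → ℕ} (x y : Str a) : Prop :=
  ∃ σ : Equiv.Perm ℕ, ∀ (i : ℕ) (v : Fin (a i) → ℕ), y i (⇑σ ∘ v) = x i v

/-- `s` and `t` are in the same orbit of the action by conjugation of the group of the order
automorphisms of `ℚ` on the maps from `ℚ` to `ℚ`. -/
def Conjugate (s t : ℚ → ℚ) : Prop := ∃ φ : ℚ ≃o ℚ, ∀ q, t (φ q) = φ (s q)

/-- Involutions of `ℚ` without fixed points which exchange an initial segment with its
complement. -/
def Involution (s : ℚ → ℚ) : Prop :=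
  (∀ q, s (s q) = q) ∧ (∀ q, s q ≠ q) ∧ ∀ p q, p < s p → q < s q → p < s q

/-- The dichotomy for the members of `K`: every Borel set of members of `K` which is invariant
under `E` has countably many `E`-classes, or there is a continuous map from the Cantor space into
this set which sends different points to inequivalent points. -/
def Dichotomy {X : Type} [TopologicalSpace X] [MeasurableSpace X] (E : X → X → Prop)
    (K : X → Prop) : Prop :=
  ∀ B : Set X, MeasurableSet B → (∀ x y, E x y → (x ∈ B ↔ y ∈ B)) → (∀ x ∈ B, K x) →
    (∃ f : ℕ → X, ∀ x ∈ B, ∃ n, E (f n) x) ∨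
    (∃ g : (ℕ → Bool) → X, Continuous g ∧ (∀ c, g c ∈ B) ∧ ∀ c d, E (g c) (g d) → c = d)

/-- `K` is faithfully complete: for every invariant Borel class `B` of structures (in any countable
relational language) there are an invariant Borel set `B'` of members of `K` and a Borel map `F`
from `B'` to `B` that induces a bijection between the classes of `E` and the isomorphism types. -/
def FaithfullyComplete {Y : Type} [MeasurableSpace Y] (E : Y → Y → Prop) (K : Y → Prop) : Prop :=
  ∀ (a : ℕ → ℕ) (B : Set (Str a)), MeasurableSet B → (∀ x y, StrIso x y → (x ∈ B ↔ y ∈ B)) →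
    ∃ (B' : Set Y) (F : Y → Str a), MeasurableSet B' ∧ (∀ y z, E y z → (y ∈ B' ↔ z ∈ B')) ∧
      (∀ y ∈ B', K y) ∧ Measurable F ∧ (∀ y ∈ B', F y ∈ B) ∧
      (∀ y ∈ B', ∀ z ∈ B', E y z ↔ StrIso (F y) (F z)) ∧ ∀ x ∈ B, ∃ y ∈ B', StrIso x (F y)

/-- The maps from `ℚ` to `ℚ` with the topology of pointwise convergence for the discrete
topology. -/
def Maps : Type := ℚ → ℚ

/-- The topology of pointwise convergence. -/
instance : TopologicalSpace Maps := @Pi.topologicalSpace ℚ (fun _ => ℚ) (fun _ => ⊥)

/-- Its Borel sets. -/
instance : MeasurableSpace Maps := borel Maps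

/-- **Theorem.** The involutions of `ℚ` without fixed points which exchange an initial segment with
its complement, up to conjugation by order automorphisms of `ℚ`, are faithfully complete. So the
dichotomy for this action of the Polish group `Aut(ℚ, <)` implies the dichotomy for the isomorphism
types in all invariant Borel classes of countable structures, in all countable relational
languages. -/
theorem result :
    FaithfullyComplete (Y := Maps) Conjugate Involution ∧
    (Dichotomy (X := Maps) Conjugate Involution →
      ∀ a : ℕ → ℕ, Dichotomy (StrIso (a := a)) (fun _ => True)) := by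
  have hborel : (MeasurableSpace.pi : MeasurableSpace (ℚ → ℚ)) = borel Maps := by
    let _ : TopologicalSpace ℚ := ⊥
    have : DiscreteTopology ℚ := ⟨rfl⟩
    have hb : BorelSpace ℚ := by
      refine ⟨?_⟩
      rw [borel_eq_top_of_discrete]
      refine eq_top_iff.2 fun s _ => ?_
      exact s.to_countable.measurableSet
    exact (@Pi.borelSpace ℚ (fun _ => ℚ) _ (fun _ => ⊥) _ _ (fun _ => hb)).measurable_eq
  have hF : @Pool.Agent.W889.VC.Faithful Maps (borel Maps) Conjugate Involution := by
    have h := Pool.Agent.TH686.DO.faithful_XI.mono (K' := Involution)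
      fun s hs => ⟨hs.inv, hs.ne, hs.cut⟩
    have e : Pool.Agent.TH686.DO.Cj = Conjugate := rfl
    rw [e] at h
    rw [← hborel]
    exact h
  refine ⟨hF, fun h a => ?_⟩
  have hbs : @BorelSpace Maps _ (borel Maps) := ⟨rfl⟩
  have h1 : @Pool.Agent.W889.VC.VCof True Maps _ (borel Maps) Conjugate Involution := by
    intro B h1 h2 h3
    rcases h B h1 h2 h3 with h4 | ⟨g, h4, h5⟩
    · exact Or.inl h4
    · exact Or.inr ⟨g, fun _ => h4, h5⟩
  have h2 := Pool.Agent.W889.VC.Faithful.vaught (Y := Maps) hF True h1 a
  intro B k1 k2 k3
  rcases h2 B k1 k2 k3 with h4 | ⟨g, h4, h5⟩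
  · exact Or.inl h4
  · exact Or.inr ⟨g, h4 trivial, h5⟩

end Pool.Agent.Results.MP_5607ba_lc.RationalInvolutions
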