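import Pool.Agent.TH783.Pol.Str

set_option autoImplicit false

/-!
The countable-or-perfect dichotomy for the isomorphism types in a Borel class of countable
structures which is closed under reducing some of the relations of arity at least two and enlarging
the others.
-/

namespace Pool.Agent.Results.MP_5607ba_lc.WeakSubstructures

/-- Structures on `ℕ`: for each `i`, a relation `x i` of arity `a i`. -/
abbrev Structures (a : ℕ → ℕ) : Type := (i : ℕ) → (Fin (a i) → ℕ) → Bool

/-- The action of the Polish group of permutations of `ℕ` on structures, by relabelling. -/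
def relabel {a : ℕ → ℕ} (σ : Equiv.Perm ℕ) (x : Structures a) : Structures a :=
  fun i v => x i (⇑σ.symm ∘ v)

/-- `y` is obtained from `x` by enlarging the relations of arity at least two with `p i = true` and
reducing the relations of arity at least two with `p i = false`; if `p` is always `false` this
means that `y` is a weak substructure of `x` with the same universe and the same unary relations. -/
structure Change {a : ℕ → ℕ} (p : ℕ → Bool) (x y : Structures a) : Prop where
  same : ∀ i, a i ≤ 1 → y i = x i
  larger : ∀ i t, p i = true → x i t = true → y i t = true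
  smaller : ∀ i t, p i = false → y i t = true → x i t = true

/-- Replace the relations of arity at least two with `p i = true` by their complements. -/
def flip {a : ℕ → ℕ} (p : ℕ → Bool) (x : Structures a) : Structures a :=
  fun i t => if 2 ≤ a i ∧ p i = true then !x i t else x i t

theorem flip_flip {a : ℕ → ℕ} (p : ℕ → Bool) (x : Structures a) : flip p (flip p x) = x := by
  funext i t
  unfold flip
  by_cases h : 2 ≤ a i ∧ p i = true
  · rw [if_pos h, if_pos h, Bool.not_not]
  · rw [if_neg h, if_neg h]

theorem flip_cont {a : ℕ → ℕ} (p : ℕ → Bool) : Continuous (flip (a := a) p) := by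
  refine continuous_pi fun i => continuous_pi fun t => ?_
  have h1 : Continuous fun x : Structures a => x i t :=
    (continuous_apply t).comp (continuous_apply i)
  by_cases h : 2 ≤ a i ∧ p i = true
  · simp only [flip, if_pos h]
    have h2 : Continuous fun b : Bool => !b := continuous_of_discreteTopology
    exact h2.comp h1
  · simp only [flip, if_neg h]
    exact h1

theorem flip_relabel {a : ℕ → ℕ} (p : ℕ → Bool) (σ : Equiv.Perm ℕ) (x : Structures a) :
    flip p (relabel σ x) = relabel σ (flip p x) := rfl

/-- The case of weak substructures. -/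
theorem weak (a : ℕ → ℕ) (K : Set (Structures a)) (hK : MeasurableSet K)
    (hi : ∀ x ∈ K, ∀ σ : Equiv.Perm ℕ, relabel σ x ∈ K)
    (hw : ∀ x ∈ K, ∀ y : Structures a, (∀ i, a i ≤ 1 → y i = x i) →
      (∀ i t, y i t = true → x i t = true) → y ∈ K) :
    (∃ f : ℕ → Structures a, ∀ x ∈ K, ∃ (n : ℕ) (σ : Equiv.Perm ℕ), x = relabel σ (f n)) ∨
    (∃ g : (ℕ → Bool) → Structures a, Continuous g ∧ (∀ b, g b ∈ K) ∧
      ∀ b c, (∃ σ : Equiv.Perm ℕ, g c = relabel σ (g b)) → b = c) := by
  have e1 : ∀ (x y : Structures a) (σ : Equiv.Perm ℕ),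
      (∀ i v, y i (⇑σ ∘ v) = x i v) ↔ y = relabel σ x := by
    intro x y σ
    constructor
    · intro h
      funext i v
      show y i v = x i (⇑σ.symm ∘ v)
      rw [← h]
      congr 1
      funext k
      simp
    · rintro rfl i v
      show x i (⇑σ.symm ∘ (⇑σ ∘ v)) = x i v
      congr 1
      funext k
      simp
  have e2 : ∀ x y : Structures a, Pool.Agent.H533R2.VO.RIso x y ↔ ∃ σ, y = relabel σ x := by
    intro x y
    constructor
    · rintro ⟨σ, h⟩
      exact ⟨σ, (e1 x y σ).1 h⟩
    · rintro ⟨σ, h⟩
      exact ⟨σ, (e1 x y σ).2 h⟩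
  have e3 : ∀ x y : Structures a, Pool.Agent.H533R2.VO.RIso x y → x ∈ K → y ∈ K := by
    intro x y h hx
    obtain ⟨σ, rfl⟩ := (e2 x y).1 h
    exact hi x hx σ
  have key := Pool.Agent.TH783.Pol.mono_main a K hK
    (fun x y h => ⟨e3 x y h, fun hy => ?_⟩) (fun x hx y h1 h2 => hw x hx y (fun i h => h1 i
      (by omega)) h2)
  · rcases key with ⟨f, hf⟩ | ⟨g, hg, hgK, hgi⟩
    · left
      refine ⟨f, fun x hx => ?_⟩
      obtain ⟨n, h⟩ := hf x hx
      obtain ⟨σ, h⟩ := (e2 _ _).1 h
      exact ⟨n, σ, h⟩
    · right
      exact ⟨g, hg, hgK, fun b c h => hgi b c ((e2 _ _).2 h)⟩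
  · obtain ⟨σ, rfl⟩ := (e2 x y).1 h
    have h3 := hi _ hy σ.symm
    have h4 : relabel σ.symm (relabel σ x) = x := by
      funext i v
      show x i (⇑σ.symm ∘ (⇑σ.symm.symm ∘ v)) = x i v
      congr 1
      funext k
      simp
    rw [h4] at h3
    exact h3

/-- Let `p` divide the relations into two parts. An invariant Borel set of structures which is
closed under enlarging the relations of arity at least two in the first part and reducing those in
the second part contains countably many orbits, or there is a continuous map from the Cantor space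
into it whose values are in different orbits. -/
theorem result (a : ℕ → ℕ) (p : ℕ → Bool) (K : Set (Structures a)) (hK : MeasurableSet K)
    (hi : ∀ x ∈ K, ∀ σ : Equiv.Perm ℕ, relabel σ x ∈ K)
    (hc : ∀ x ∈ K, ∀ y, Change p x y → y ∈ K) :
    (∃ f : ℕ → Structures a, ∀ x ∈ K, ∃ (n : ℕ) (σ : Equiv.Perm ℕ), x = relabel σ (f n)) ∨
    (∃ g : (ℕ → Bool) → Structures a, Continuous g ∧ (∀ b, g b ∈ K) ∧
      ∀ b c, (∃ σ : Equiv.Perm ℕ, g c = relabel σ (g b)) → b = c) := by
  have hm : Measurable (flip (a := a) p) := by
    refine measurable_pi_iff.2 fun i => measurable_pi_iff.2 fun t => ?_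
    have h1 : Measurable fun x : Structures a => x i t :=
      (measurable_pi_apply t).comp (measurable_pi_apply i)
    by_cases h : 2 ≤ a i ∧ p i = true
    · simp only [flip, if_pos h]
      exact (measurable_of_countable fun b : Bool => !b).comp h1
    · simp only [flip, if_neg h]
      exact h1
  have hcl : ∀ x ∈ flip (a := a) p ⁻¹' K, ∀ y : Structures a, (∀ i, a i ≤ 1 → y i = x i) →
      (∀ i t, y i t = true → x i t = true) → y ∈ flip (a := a) p ⁻¹' K := by
    intro x hx y h1 h2
    refine hc (flip p x) hx (flip p y) ⟨fun i h => ?_, fun i t h h3 => ?_, fun i t h h3 => ?_⟩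
    · funext t
      have h3 : ¬ (2 ≤ a i ∧ p i = true) := fun h4 => by omega
      show (if 2 ≤ a i ∧ p i = true then !y i t else y i t) =
        if 2 ≤ a i ∧ p i = true then !x i t else x i t
      rw [if_neg h3, if_neg h3, h1 i h]
    · change (if 2 ≤ a i ∧ p i = true then !x i t else x i t) = true at h3
      show (if 2 ≤ a i ∧ p i = true then !y i t else y i t) = true
      by_cases h4 : 2 ≤ a i
      · rw [if_pos ⟨h4, h⟩] at h3 ⊢
        have h5 := h2 i t
        revert h3 h5
        cases x i t <;> cases y i t <;> simp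
      · rw [if_neg fun h5 => h4 h5.1] at h3 ⊢
        rw [h1 i (by omega)]
        exact h3
    · have h4 : ¬ (2 ≤ a i ∧ p i = true) := fun h5 => by
        rw [h] at h5
        exact Bool.false_ne_true h5.2
      change (if 2 ≤ a i ∧ p i = true then !y i t else y i t) = true at h3
      show (if 2 ≤ a i ∧ p i = true then !x i t else x i t) = true
      rw [if_neg h4] at h3 ⊢
      exact h2 i t h3
  rcases weak a (flip p ⁻¹' K) (hm hK) (fun x hx σ => hi _ hx σ) hcl with
    ⟨f, hf⟩ | ⟨g, hg, hgK, hgi⟩
  · left
    refine ⟨fun n => flip p (f n), fun x hx => ?_⟩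
    have hx' : flip p x ∈ flip p ⁻¹' K := by
      show flip p (flip p x) ∈ K
      rw [flip_flip]
      exact hx
    obtain ⟨n, σ, h⟩ := hf _ hx'
    refine ⟨n, σ, ?_⟩
    rw [← flip_relabel, ← h, flip_flip]
  · right
    refine ⟨fun b => flip p (g b), (flip_cont p).comp hg, hgK, ?_⟩
    rintro b c ⟨σ, h⟩
    refine hgi b c ⟨σ, ?_⟩
    have h2 := congrArg (flip p) h
    rw [flip_flip, ← flip_relabel, flip_flip] at h2
    exact h2

end Pool.Agent.Results.MP_5607ba_lc.WeakSubstructures
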